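import Pool.Agent.Work.MP_4ee3e3_lc.Final

/-!
# Every model of ATR_0 satisfies EXT(eta)
-/

set_option autoImplicit false

namespace Pool.Agent.Results.MP_4ee3e3_lc.ExtEtaInATR0

open Pool.Agent.Work.MP_4ee3e3_lc

universe u

/-- Every model of `ATR_0` (a structure for the language of second-order arithmetic, with numbers
`M` and set quantifiers ranging over `S`) satisfies `EXT(η)`: every scattered partial order has a
scattered linearization. -/
theorem result {M : Type u} [Zero M] [One M] [Add M] [Mul M] [LT M] (S : Set (Set M))
    (H : IsModelATR0 S) : ExtEta S :=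
  extEta_of_model S H

end Pool.Agent.Results.MP_4ee3e3_lc.ExtEtaInATR0
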